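import Pool.Agent.NPA.HFin

/-!
Projective absoluteness fails for proper boldface `Sigma^1_2` forcings under determinacy.

Everything is relative to models: `ZFM M` says that `M` is a model of ZF, `AC M` is the axiom of
choice in `M`, `Det RS k` is boldface `Pi^1_k`-determinacy in the model. The definitions are in
`Pool.Agent.NPA.Defs1`, `Pool.Agent.NPA.Defs4`, `Pool.Agent.NPA.Defs7` and `Pool.Agent.NPA.HFin`.
-/

universe u

namespace Pool.Agent.Results.MP_4e3283_lc.ProperForcing

open Pool.Agent.H78.ZF Pool.Agent.ZFIter Pool.Agent.ZFIter.NPA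

/-- If there is a model of ZFC in which boldface `Pi^1_k`-determinacy holds (`k ≥ 2`), then there is
one which in addition has a proper boldface `Sigma^1_2` forcing which changes the truth value of a
`Sigma^1_4` statement with real parameters. -/
theorem result (M : Type u) [ZFM M] (k : ℕ) (hk : 2 ≤ k) (hAC : AC M) (hD : Det (RS : M) k) :
    ∃ (W : Type u) (_ : ZFM W), AC W ∧ Det (RS : W) k ∧
      ∃ P R : W, SForc P R ∧ Proper P R ∧ StatPres P R ∧ Changes P R :=
  main k hk hAC hD

end Pool.Agent.Results.MP_4e3283_lc.ProperForcing
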